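import Mathlib
import Pool.Agent.H95R2.BG.FormPrimes

/-! For some fixed `1 ≤ m ≤ 72` both `p` and `4^m p + (4^m - 1) / 3` are prime infinitely often. -/

/-- the exponents `0, 1, 3, 4, 6, 7, ...` -/
def Pool.Agent.Results.MP_3df474_nt.PowerOfFourRatios.ex (k : ℕ) : ℕ := 3 * (k / 2) + k % 2

open Pool.Agent.Results.MP_3df474_nt.PowerOfFourRatios in
theorem Pool.Agent.Results.MP_3df474_nt.PowerOfFourRatios.three (e : ℕ) : 3 * ((4 ^ e - 1) / 3) + 1 = 4 ^ e := by
  have h1 : 4 ^ e % 3 = 1 := by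
    rw [Nat.pow_mod]; simp
  have h2 : 0 < 4 ^ e := by positivity
  omega

theorem Pool.Agent.Results.MP_3df474_nt.PowerOfFourRatios.result :
    ∃ m : ℕ, 1 ≤ m ∧ m ≤ 72 ∧ ∀ ε : ℝ, 0 < ε → ∃ᶠ x : ℝ in Filter.atTop, x ^ (1 - ε) ≤
      (Set.ncard {p : ℕ | (p : ℝ) ≤ x ∧ p.Prime ∧ (4 ^ m * p + (4 ^ m - 1) / 3).Prime} : ℝ) := by
  set ex := Pool.Agent.Results.MP_3df474_nt.PowerOfFourRatios.ex with hex
  have three := Pool.Agent.Results.MP_3df474_nt.PowerOfFourRatios.three
  have hexlt : ∀ i j : ℕ, i < j → ex i < ex j := by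
    intro i j hij
    simp only [hex, Pool.Agent.Results.MP_3df474_nt.PowerOfFourRatios.ex]
    omega
  obtain ⟨i, j, hij, h⟩ := Pool.Agent.H95R2.BG.LF.forms49_primes (fun i => ((4 ^ ex i : ℕ) : ℤ))
    (fun i => (((4 ^ ex i - 1) / 3 : ℕ) : ℤ))
    (fun i => by positivity) (fun i j hij h => hij (by
      have h1 : 4 ^ ex i * ((4 ^ ex j - 1) / 3) = 4 ^ ex j * ((4 ^ ex i - 1) / 3) := by exact_mod_cast h
      have h2 := three (ex i)
      have h3 := three (ex j)
      have h4 : 4 ^ ex i = 4 ^ ex j := by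
        generalize (4 ^ ex i - 1) / 3 = A at *
        generalize (4 ^ ex j - 1) / 3 = B at *
        generalize 4 ^ ex i = P at *
        generalize 4 ^ ex j = R at *
        have e1 : P * R = 3 * (P * B) + P := by rw [← h3]; ring
        have e2 : R * P = 3 * (R * A) + R := by rw [← h2]; ring
        have e3 : P * R = R * P := mul_comm _ _
        omega
      have h5 : ex i = ex j := Nat.pow_right_injective (by norm_num) h4
      apply Fin.ext
      rcases lt_trichotomy (i : ℕ) j with h6 | h6 | h6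
      · exact absurd h5 (hexlt _ _ h6).ne
      · exact h6
      · exact absurd h5 (hexlt _ _ h6).ne'))
    (fun p hp => by
      rcases Nat.lt_or_ge p 3 with hp3 | hp3
      · -- p = 2
        have hp2 : p = 2 := by have := hp.two_le; omega
        refine ⟨1, fun i hd => ?_⟩
        have h1 : p ∣ 4 ^ ex i * 1 + (4 ^ ex i - 1) / 3 := by exact_mod_cast hd
        rw [hp2] at h1
        have h2 := three (ex i)
        rcases Nat.eq_zero_or_pos (ex i) with h3 | h3
        · rw [h3] at h1; norm_num at h1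
        · have h4 : 4 ^ ex i = 4 * 4 ^ (ex i - 1) := by
            rw [← pow_succ']; congr 1; omega
          omega
      · rcases Nat.eq_or_lt_of_le hp3 with hp3' | hp3'
        · -- p = 3
          refine ⟨1, fun i hd => ?_⟩
          have h1 : p ∣ 4 ^ ex i * 1 + (4 ^ ex i - 1) / 3 := by exact_mod_cast hd
          rw [← hp3'] at h1
          have h2 := three (ex i)
          -- 4 ^ e = 1 + 3 e mod 9
          have h5 : ∀ e : ℕ, 4 ^ e % 9 = (1 + 3 * e) % 9 := by
            intro e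
            induction e with
            | zero => rfl
            | succ e ih => rw [pow_succ]; omega
          have h6 := h5 (ex i)
          have h7 : ex i = 3 * ((i : ℕ) / 2) + (i : ℕ) % 2 := rfl
          have h8 : (i : ℕ) % 2 = 0 ∨ (i : ℕ) % 2 = 1 := Nat.mod_two_eq_zero_or_one _
          generalize 4 ^ ex i = F at *
          omega
        · -- p > 3: choose `n` with `3 n + 1 = 0`
          have hp3n : ¬ p ∣ 3 := fun hd => by
            have := Nat.le_of_dvd (by norm_num) hd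
            omega
          have hcop : Nat.Coprime 3 p := by
            rw [Nat.coprime_comm]
            exact (Nat.Prime.coprime_iff_not_dvd hp).mpr hp3n
          obtain ⟨n, hn⟩ : ∃ n : ℤ, (p : ℤ) ∣ 3 * n + 1 := by
            have h1 : IsCoprime (3 : ℤ) p := by exact_mod_cast Nat.isCoprime_iff_coprime.mpr hcop
            obtain ⟨u, v, huv⟩ := h1
            refine ⟨-u, ⟨v, ?_⟩⟩
            linarith
          refine ⟨n, fun i hd => ?_⟩
          have h2 := three (ex i)
          have h3 : (3 : ℤ) * (((4 ^ ex i - 1) / 3 : ℕ) : ℤ) + 1 = ((4 ^ ex i : ℕ) : ℤ) := by exact_mod_cast h2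
          have h4 : (p : ℤ) ∣ 1 := by
            have h5 : (1 : ℤ) = ((4 ^ ex i : ℕ) : ℤ) * (3 * n + 1) -
                3 * (((4 ^ ex i : ℕ) : ℤ) * n + (((4 ^ ex i - 1) / 3 : ℕ) : ℤ)) := by
              linear_combination h3
            rw [h5]
            exact dvd_sub (dvd_mul_of_dvd_right hn _) (dvd_mul_of_dvd_right hd _)
          have h6 : p ∣ 1 := by exact_mod_cast h4
          exact hp.one_lt.ne' (Nat.dvd_one.mp h6))
  have hij' : (i : ℕ) < j := hij
  have hj := j.isLt
  have hlt := hexlt i j hij'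
  have hle : ex j ≤ 72 := by
    simp only [hex, Pool.Agent.Results.MP_3df474_nt.PowerOfFourRatios.ex]
    omega
  refine ⟨ex j - ex i, by omega, by omega, fun ε hε => ?_⟩
  refine (h ε hε).mono fun x hx => hx.trans ?_
  have hfin : {p : ℕ | (p : ℝ) ≤ x ∧ p.Prime ∧ (4 ^ (ex j - ex i) * p + (4 ^ (ex j - ex i) - 1) / 3).Prime}.Finite := by
    apply (Set.finite_Iic ⌊x⌋₊).subset
    rintro n ⟨hn, -⟩
    rw [Set.mem_Iic]
    exact Nat.le_floor hn
  have hsub : {p : ℕ | (p : ℝ) ≤ x ∧ p.Prime ∧ ∃ n q : ℕ, q.Prime ∧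
      (p : ℤ) = ((4 ^ ex i : ℕ) : ℤ) * n + (((4 ^ ex i - 1) / 3 : ℕ) : ℤ) ∧
      (q : ℤ) = ((4 ^ ex j : ℕ) : ℤ) * n + (((4 ^ ex j - 1) / 3 : ℕ) : ℤ)} ⊆
      {p : ℕ | (p : ℝ) ≤ x ∧ p.Prime ∧ (4 ^ (ex j - ex i) * p + (4 ^ (ex j - ex i) - 1) / 3).Prime} := by
    rintro p ⟨hp1, hp2, n, q, hq, h3, h4⟩
    refine ⟨hp1, hp2, ?_⟩
    have h5 : p = 4 ^ ex i * n + (4 ^ ex i - 1) / 3 := by exact_mod_cast h3
    have h6 : q = 4 ^ ex j * n + (4 ^ ex j - 1) / 3 := by exact_mod_cast h4
    have h7 : 4 ^ ex j = 4 ^ (ex j - ex i) * 4 ^ ex i := by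
      rw [← pow_add]; congr 1; omega
    have h8 := three (ex i)
    have h9 := three (ex j)
    have h10 := three (ex j - ex i)
    have h11 : 4 ^ (ex j - ex i) * p + (4 ^ (ex j - ex i) - 1) / 3 = q := by
      have h12 : 3 * (4 ^ (ex j - ex i) * p + (4 ^ (ex j - ex i) - 1) / 3) = 3 * q := by
        rw [h5, h6]
        generalize (4 ^ ex i - 1) / 3 = A at *
        generalize (4 ^ ex j - 1) / 3 = B at *
        generalize (4 ^ (ex j - ex i) - 1) / 3 = D at *
        generalize 4 ^ ex i = P at *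
        generalize 4 ^ ex j = R at *
        generalize 4 ^ (ex j - ex i) = S at *
        subst h7
        subst h8
        nlinarith
      omega
    rw [h11]
    exact hq
  exact_mod_cast Set.ncard_le_ncard hsub hfin
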