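import Mathlib
import Pool.Agent.H95R2.TG.Final
import Pool.Agent.H95R2.TG.H4

/-! Primes p in [N, 2N] such that all prime factors of 4p+1 are large and 1 mod 4. -/

set_option autoImplicit false

theorem Pool.Agent.Results.MP_3df474_nt.QuadrupleAllSplit.result :
    ∃ c : ℝ, 0 < c ∧ ∃ N₀ : ℕ, ∀ N : ℕ, N₀ ≤ N →
      c * (N / Real.log N ^ 2) ≤
        (Set.ncard {p : ℕ | p.Prime ∧ N ≤ p ∧ p ≤ 2 * N ∧
          ∀ r : ℕ, r.Prime → r ∣ 4 * p + 1 → r % 4 = 1 ∧ (N : ℝ) ^ c ≤ (r : ℝ)} : ℝ) := by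
  classical
  obtain ⟨c, hc, N0, h⟩ := Pool.Agent.H95R2.TG.quad Pool.Agent.H95R2.TG.main_holds
  refine ⟨c, hc, N0, fun N hN => (h N hN).trans ?_⟩
  rw [← Set.ncard_coe_finset]
  have hfin : {p : ℕ | p.Prime ∧ N ≤ p ∧ p ≤ 2 * N ∧
          ∀ r : ℕ, r.Prime → r ∣ 4 * p + 1 → r % 4 = 1 ∧ (N : ℝ) ^ c ≤ (r : ℝ)}.Finite :=
    (Set.finite_Iic (2 * N)).subset fun n hn => hn.2.2.1
  have h2 := Set.ncard_le_ncard (s := ((((Finset.Icc N (2 * N)).filter (fun p : ℕ => p.Prime ∧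
      ∀ r ∈ (4 * p + 1).primeFactors, r % 4 = 1 ∧ (N : ℝ) ^ c ≤ (r : ℝ))) : Finset ℕ) : Set ℕ)) ?_ hfin
  · refine le_trans (le_of_eq ?_) (Nat.cast_le.2 h2)
    congr 2
  · intro p hp
    simp only [Finset.coe_filter, Finset.mem_Icc, Set.mem_ofPred_eq] at hp
    obtain ⟨⟨h1, h2⟩, h3, h4⟩ := hp
    refine ⟨h3, h1, h2, fun r hr hd => h4 r (Nat.mem_primeFactors.2 ⟨hr, hd, ?_⟩)⟩
    have := h3.two_le
    omega
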