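import Mathlib
import Pool.Agent.H447R3.IT.Iter

/-! A quarter of the iterates `S^3, S^6, S^9, ...` of `S x = 4 x + 1` send infinitely many primes
to primes. -/

theorem Pool.Agent.Results.MP_3df474_nt.QuarterOfIterates.result :
    ∀ ε : ℝ, 0 < ε → ∃ N0 : ℕ, ∀ N ≥ N0, (1 / 4 - ε) * (N : ℝ) ≤
      ({i : ℕ | 1 ≤ i ∧ i ≤ N ∧
        {p : ℕ | p.Prime ∧ ((fun x : ℕ => 4 * x + 1)^[3 * i] p).Prime}.Infinite}.ncard : ℝ) := by
  intro ε hε
  have h := Pool.Agent.H447R3.IT.iter_density 4 1 3 (by norm_num)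
    (by norm_num) (by norm_num) (by
      intro p hp hd
      have h1 : p ∣ 3 := by simpa using hd
      exact_mod_cast h1) ε hε
  have key : ∀ (j p : ℕ), (fun x : ℤ => ((4 : ℕ) : ℤ) * x + 1)^[j] (p : ℤ) =
      (((fun x : ℕ => 4 * x + 1)^[j] p : ℕ) : ℤ) := by
    intro j
    induction j with
    | zero => intro p; rfl
    | succ j ih =>
      intro p
      rw [Function.iterate_succ_apply', ih, Function.iterate_succ_apply']
      push_cast
      ring
  obtain ⟨N0, hN0⟩ := h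
  refine ⟨N0, fun N hN => (hN0 N hN).trans (le_of_eq ?_)⟩
  congr 2
  ext i
  simp only [key, Set.mem_ofPred_eq]
  have : ∀ p : ℕ, (0 < (((fun x : ℕ => 4 * x + 1)^[3 * i] p : ℕ) : ℤ) ∧
      Prime (((fun x : ℕ => 4 * x + 1)^[3 * i] p : ℕ) : ℤ)) ↔
      ((fun x : ℕ => 4 * x + 1)^[3 * i] p).Prime := by
    intro p
    rw [← Nat.prime_iff_prime_int]
    constructor
    · exact fun h => h.2
    · exact fun h => ⟨by exact_mod_cast h.pos, h⟩
  simp only [this]
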